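import Pool.Agent.Helper71.UN.StD

/-!
# Project UN, module VM: the vertex model
-/

set_option autoImplicit false

open Set Filter Topology Matrix
open scoped ContDiff ComplexConjugate

noncomputable section

namespace Pool.Agent.Helper7.UN

open Pool.Agent.Helper71.UN

/-- `fstA` finds the first index which is not on the left. -/
theorem fstA_eq (d : ℕ → ℂ) (z : ℂ) : ∀ (m i j : ℕ), i ≤ j → j ≤ i + m →
    (∀ i', i ≤ i' → i' < j → 0 < hh (d i') z) → (j < i + m → hh (d j) z ≤ 0) →
    fstA d i m z = j := by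
  intro m
  induction m with
  | zero =>
    intro i j h1 h2 _ _
    show i = j
    omega
  | succ m ih =>
    intro i j h1 h2 h3 h4
    show (if hh (d i) z ≤ 0 then i else fstA d (i + 1) m z) = j
    rcases Nat.eq_or_lt_of_le h1 with h | h
    · subst h
      rw [if_pos (h4 (by omega))]
    · have h5 := h3 i le_rfl h
      rw [if_neg (not_le.mpr h5)]
      exact ih (i + 1) j h (by omega) (fun i' a b => h3 i' (by omega) b)
        (fun a => h4 (by omega))

/-- `fstB` finds the first index which is not on the right. -/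
theorem fstB_eq (d : ℕ → ℂ) (z : ℂ) : ∀ (m i j : ℕ), i ≤ j → j ≤ i + m →
    (∀ i', i ≤ i' → i' < j → hh (d i') z < 0) → (j < i + m → 0 ≤ hh (d j) z) →
    fstB d i m z = j := by
  intro m
  induction m with
  | zero =>
    intro i j h1 h2 _ _
    show i = j
    omega
  | succ m ih =>
    intro i j h1 h2 h3 h4
    show (if 0 ≤ hh (d i) z then i else fstB d (i + 1) m z) = j
    rcases Nat.eq_or_lt_of_le h1 with h | h
    · subst h
      rw [if_pos (h4 (by omega))]
    · have h5 := h3 i le_rfl h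
      rw [if_neg (not_le.mpr h5)]
      exact ih (i + 1) j h (by omega) (fun i' a b => h3 i' (by omega) b)
        (fun a => h4 (by omega))

/-- The parameter depends smoothly on the entries. -/
theorem paR_smooth (σ : ℂ → ℕ → ℝ) (h : ∀ i, ContDiff ℝ ∞ fun z => σ z i) :
    ∀ (m i : ℕ), ContDiff ℝ ∞ fun z => paR (σ z) i m := by
  intro m
  induction m with
  | zero =>
    intro i
    exact contDiff_const
  | succ m ih =>
    intro i
    cases m with
    | zero => exact h i
    | succ m =>
      show ContDiff ℝ ∞ fun z => σ z i / 2 + paR (σ z) (i + 1) (m + 1) / 2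
      exact ((h i).div_const 2).add ((ih (i + 1)).div_const 2)

/-- `z ↦ Re (z * conj e)` is smooth. -/
theorem re_smooth (e : ℂ) : ContDiff ℝ ∞ fun z : ℂ => (z * conj e).re :=
  Complex.reCLM.contDiff.comp (contDiff_id.mul contDiff_const)

/-- `hh d` is smooth. -/
theorem hh_smooth (d : ℂ) : ContDiff ℝ ∞ fun z : ℂ => hh d z :=
  (Complex.imCLM.contDiff.comp (contDiff_id.mul contDiff_const)).div_const _

/-- **VM**. -/
theorem hVM (hs : StSTP) (hp : StPRP) (hg : StVG) : StVM := by
  intro n al e dA dB mA mB gA gB xA xB he hmA hmB hDA hDB hA hB h0 h1 hH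
  obtain ⟨R₀, hR₀, hR⟩ := hg e dA dB mA mB he hDA hDB
  obtain ⟨H, Hsm, Hok, Hl, Hr, Ht0, Ht1⟩ := hH
  obtain ⟨-, -, -, -, -, sgC, sgB, sg0, sg1, -, -, -, -, -⟩ := hs
  obtain ⟨pA, qA⟩ := hp n al gA xA 0 mA hmA (fun j _ hj => hA j (by omega))
  obtain ⟨pB, qB⟩ := hp n al gB xB 0 mB hmB (fun j _ hj => hB j (by omega))
  rw [Nat.zero_add] at pA pB
  have hepos : 0 < ‖e‖ := norm_pos_iff.mpr he
  let T : ℂ → ℝ := fun z => sg (-(z * conj e).re / ‖e‖)
  let σA : ℂ → ℕ → ℝ := fun z i => sg (hh (dA i) z)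
  let σB : ℂ → ℕ → ℝ := fun z i => sg (-hh (dB i) z)
  let sA : ℂ → ℝ := fun z => paR (σA z) 0 mA
  let sB : ℂ → ℝ := fun z => paR (σB z) 0 mB
  let s : ℂ → ℝ := fun z => (1 - T z) * sA z + T z * sB z
  have Tsm : ContDiff ℝ ∞ T := sgC.comp (((re_smooth e).neg).div_const _)
  have sAsm : ContDiff ℝ ∞ sA := paR_smooth σA (fun i => sgC.comp (hh_smooth (dA i))) mA 0
  have sBsm : ContDiff ℝ ∞ sB := paR_smooth σB (fun i => sgC.comp ((hh_smooth (dB i)).neg)) mB 0
  have ssm : ContDiff ℝ ∞ s := ((contDiff_const.sub Tsm).mul sAsm).add (Tsm.mul sBsm)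
  refine ⟨fun z => H (s z, T z), R₀, hR₀, ?_, fun z => Hok _, ?_⟩
  · intro l a b
    exact (Hsm l a b).comp (ssm.prodMk Tsm)
  intro z hz
  obtain ⟨cA1, cB1, cA2, cB2, cC⟩ := hR z hz
  have bA : ∀ j, 0 ≤ σA z j ∧ σA z j ≤ 1 := fun j => sgB _
  have bB : ∀ j, 0 ≤ σB z j ∧ σB z j ≤ 1 := fun j => sgB _
  have T0 : ‖e‖ ≤ (z * conj e).re → T z = 0 := by
    intro h
    apply sg0
    rw [div_le_iff₀ hepos]
    linarith
  have T1 : (z * conj e).re ≤ -‖e‖ → T z = 1 := by
    intro h
    apply sg1
    rw [le_div_iff₀ hepos]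
    linarith
  have MA : ‖e‖ ≤ (z * conj e).re → H (s z, T z) = prP gA xA 0 mA (sA z) := by
    intro h
    have h2 : s z = sA z := by
      show (1 - T z) * sA z + T z * sB z = sA z
      rw [T0 h]; ring
    rw [h2, Ht0 (sA z, T z) (le_of_eq (T0 h))]
  have MB : (z * conj e).re ≤ -‖e‖ → H (s z, T z) = prP gB xB 0 mB (sB z) := by
    intro h
    have h2 : s z = sB z := by
      show (1 - T z) * sA z + T z * sB z = sB z
      rw [T1 h]; ring
    rw [h2, Ht1 (sB z, T z) (ge_of_eq (T1 h))]
  -- values at a cut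
  have vA : ∀ j, j ≤ mA → (∀ i, i < j → 1 ≤ hh (dA i) z) →
      (∀ i, j ≤ i → i < mA → hh (dA i) z ≤ -1) →
      prP gA xA 0 mA (sA z) = xA j ∧ fstA dA 0 mA z = j := by
    intro j hj h2 h3
    refine ⟨?_, fstA_eq dA z mA 0 j (Nat.zero_le _) (by omega)
      (fun i' _ hi' => lt_of_lt_of_le one_pos (h2 i' hi'))
      (fun hj' => (h3 j le_rfl (by omega)).trans (by norm_num))⟩
    rcases Nat.eq_or_lt_of_le hj with h4 | h4
    · have h5 : sA z = 1 := (qA (σA z) bA).2.1
        (fun i _ hi => sg1 _ (h2 i (by omega)))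
      rw [h5, pA.right 1 le_rfl, h4]
    · have h5 := (qA (σA z) bA).1 j (Nat.zero_le _) (by omega)
        (fun i _ hi => sg1 _ (h2 i hi))
        (fun i hi hi' => sg0 _ (h3 i hi.le (by omega)))
      have h6 : σA z j = 0 := sg0 _ (h3 j le_rfl h4)
      rw [h6, (hA j h4).left 0 le_rfl] at h5
      exact h5
  have vB : ∀ j, j ≤ mB → (∀ i, i < j → hh (dB i) z ≤ -1) →
      (∀ i, j ≤ i → i < mB → 1 ≤ hh (dB i) z) →
      prP gB xB 0 mB (sB z) = xB j ∧ fstB dB 0 mB z = j := by
    intro j hj h2 h3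
    refine ⟨?_, fstB_eq dB z mB 0 j (Nat.zero_le _) (by omega)
      (fun i' _ hi' => lt_of_le_of_lt (h2 i' hi') (by norm_num))
      (fun hj' => le_trans (by norm_num) (h3 j le_rfl (by omega)))⟩
    rcases Nat.eq_or_lt_of_le hj with h4 | h4
    · have h5 : sB z = 1 := (qB (σB z) bB).2.1
        (fun i _ hi => sg1 _ (by have := h2 i (by omega); linarith))
      rw [h5, pB.right 1 le_rfl, h4]
    · have h5 := (qB (σB z) bB).1 j (Nat.zero_le _) (by omega)
        (fun i _ hi => sg1 _ (by have := h2 i hi; linarith))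
        (fun i hi hi' => sg0 _ (by have := h3 i hi.le (by omega); linarith))
      have h6 : σB z j = 0 := sg0 _ (by have := h3 j le_rfl h4; linarith)
      rw [h6, (hB j h4).left 0 le_rfl] at h5
      exact h5
  refine ⟨?_, ?_, ?_⟩
  · intro i hi ht hhh
    obtain ⟨a1, a2, a3⟩ := cA1 i hi ht hhh
    refine ⟨?_, lt_of_lt_of_le hepos a1, ?_⟩
    · show H (s z, T z) = gA i (sg (hh (dA i) z))
      rw [MA a1]
      exact (qA (σA z) bA).1 i (Nat.zero_le _) (by omega)
        (fun j _ hj => sg1 _ (a2 j hj)) (fun j hj hj' => sg0 _ (a3 j hj (by omega)))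
    · by_cases h2 : hh (dA i) z ≤ 0
      · left
        exact fstA_eq dA z mA 0 i (Nat.zero_le _) (by omega)
          (fun i' _ hi' => lt_of_lt_of_le one_pos (a2 i' hi')) (fun _ => h2)
      · right
        push Not at h2
        refine fstA_eq dA z mA 0 (i + 1) (Nat.zero_le _) (by omega) ?_
          (fun hj' => (a3 (i + 1) (by omega) (by omega)).trans (by norm_num))
        intro i' _ hi'
        rcases Nat.lt_succ_iff_lt_or_eq.mp hi' with h3 | h3
        · exact lt_of_lt_of_le one_pos (a2 i' h3)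
        · rw [h3]; exact h2
  · intro i hi ht hhh
    obtain ⟨a1, a2, a3⟩ := cB1 i hi ht hhh
    refine ⟨?_, by linarith, ?_⟩
    · show H (s z, T z) = gB i (sg (-hh (dB i) z))
      rw [MB a1]
      exact (qB (σB z) bB).1 i (Nat.zero_le _) (by omega)
        (fun j _ hj => sg1 _ (by have := a2 j hj; linarith))
        (fun j hj hj' => sg0 _ (by have := a3 j hj (by omega); linarith))
    · by_cases h2 : 0 ≤ hh (dB i) z
      · left
        exact fstB_eq dB z mB 0 i (Nat.zero_le _) (by omega)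
          (fun i' _ hi' => lt_of_le_of_lt (a2 i' hi') (by norm_num)) (fun _ => h2)
      · right
        push Not at h2
        refine fstB_eq dB z mB 0 (i + 1) (Nat.zero_le _) (by omega) ?_
          (fun hj' => le_trans (by norm_num) (a3 (i + 1) (by omega) (by omega)))
        intro i' _ hi'
        rcases Nat.lt_succ_iff_lt_or_eq.mp hi' with h3 | h3
        · exact lt_of_le_of_lt (a2 i' h3) (by norm_num)
        · rw [h3]; exact h2
  · intro nA nB
    show H (s z, T z) = if 0 < (z * conj e).re then xA (fstA dA 0 mA z) else xB (fstB dB 0 mB z)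
    rcases le_total ‖e‖ (z * conj e).re with h2 | h2
    · obtain ⟨j, j1, j2, j3⟩ := cA2 (by linarith) nA
      obtain ⟨v1, v2⟩ := vA j j1 j2 j3
      rw [if_pos (lt_of_lt_of_le hepos h2), MA h2, v1, v2]
    · rcases le_total (z * conj e).re (-‖e‖) with h3 | h3
      · obtain ⟨j, j1, j2, j3⟩ := cB2 (by linarith) nB
        obtain ⟨v1, v2⟩ := vB j j1 j2 j3
        rw [if_neg (by linarith), MB h3, v1, v2]
      · rcases cC (abs_le.mpr ⟨h3, h2⟩) with ⟨a1, a2⟩ | ⟨a1, a2⟩
        · have hsA : sA z = 1 := (qA (σA z) bA).2.1 (fun i _ hi => sg1 _ (a1 i (by omega)))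
          have hsB : sB z = 1 := (qB (σB z) bB).2.1
            (fun i _ hi => sg1 _ (by have := a2 i (by omega); linarith))
          have hsz : s z = 1 := by
            show (1 - T z) * sA z + T z * sB z = 1
            rw [hsA, hsB]; ring
          rw [Hr (s z, T z) (ge_of_eq hsz)]
          have f1 := (vA mA le_rfl a1 (fun i hi hi' => absurd hi' (by omega))).2
          have f2 := (vB mB le_rfl a2 (fun i hi hi' => absurd hi' (by omega))).2
          rw [f1, f2, ← h1, ite_self]
        · have hsA : sA z = 0 := (qA (σA z) bA).2.2 (fun i _ hi => sg0 _ (a1 i (by omega)))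
          have hsB : sB z = 0 := (qB (σB z) bB).2.2
            (fun i _ hi => sg0 _ (by have := a2 i (by omega); linarith))
          have hsz : s z = 0 := by
            show (1 - T z) * sA z + T z * sB z = 0
            rw [hsA, hsB]; ring
          rw [Hl (s z, T z) (le_of_eq hsz)]
          have f1 := (vA 0 (Nat.zero_le _) (fun i hi => absurd hi (by omega))
            (fun i _ hi => a1 i hi)).2
          have f2 := (vB 0 (Nat.zero_le _) (fun i hi => absurd hi (by omega))
            (fun i _ hi => a2 i hi)).2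
          rw [f1, f2, ← h0, ite_self]

end Pool.Agent.Helper7.UN
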